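import Mathlib

/-!
# Unbounded orbits in the planar three-body problem: a Baire category argument
-/

namespace Pool.Agent.N522.TB

open Set Topology

/-- Positions of the three bodies. -/
abbrev Pos := Fin 3 → EuclideanSpace ℝ (Fin 2)

/-- Phase space: positions without collisions, and velocities. -/
def Phase : Set (Pos × Pos) := {x | ∀ a b, a ≠ b → x.1 a ≠ x.1 b}

/-- `q` solves Newton's equations for the masses `m` on the interval `I`. -/
def IsSol (m : Fin 3 → ℝ) (I : Set ℝ) (q : ℝ → Pos) : Prop :=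
  ∃ v : ℝ → Pos, ∀ t ∈ I, (q t, v t) ∈ Phase ∧ HasDerivWithinAt q (v t) I t ∧
    HasDerivWithinAt v (fun a => ∑ b ∈ Finset.univ.erase a,
      (m b / ‖q t b - q t a‖ ^ 3) • (q t b - q t a)) I t

/-- The solution that starts at `x` has, at some time (positive or negative), a mutual distance larger
than `C`. -/
def Reaches (m : Fin 3 → ℝ) (C : ℝ) (x : Pos × Pos) : Prop :=
  ∃ (s t : ℝ) (q : ℝ → Pos), s ≤ 0 ∧ 0 ≤ t ∧ IsSol m (Icc s t) q ∧ q 0 = x.1 ∧
    HasDerivWithinAt q x.2 (Icc s t) 0 ∧ ∃ τ ∈ Icc s t, ∃ a b, C < ‖q τ a - q τ b‖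

/-- The solution is unbounded. -/
def Unbounded (m : Fin 3 → ℝ) (x : Pos × Pos) : Prop := ∀ C : ℝ, Reaches m C x

/-- Continuous dependence on the initial conditions: reaching a distance larger than `C` is an open
condition on phase space. -/
def ContinuousDependence (m : Fin 3 → ℝ) : Prop := ∀ C : ℝ, IsOpen {x ∈ Phase | Reaches m C x}

theorem isOpen_phase : IsOpen Phase := by
  have : Phase = ⋂ a : Fin 3, ⋂ b : Fin 3, {x : Pos × Pos | a ≠ b → x.1 a ≠ x.1 b} := by
    ext x
    simp [Phase]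
  rw [this]
  refine isOpen_iInter_of_finite fun a => isOpen_iInter_of_finite fun b => ?_
  by_cases h : a = b
  · simp [h]
  · simp only [ne_eq, h, not_false_eq_true, forall_const]
    exact isOpen_ne_fun ((continuous_apply a).comp continuous_fst)
      ((continuous_apply b).comp continuous_fst)

/-- Unbounded solutions are dense in the open set `W` if and only if for every `C` the solutions that
reach a distance larger than `C` are dense in `W`. -/
theorem dense_iff (m : Fin 3 → ℝ) (h : ContinuousDependence m) (W : Set (Pos × Pos))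
    (hP : W ⊆ Phase) :
    (∀ V ⊆ W, IsOpen V → V.Nonempty → ∃ x ∈ V, Unbounded m x) ↔
      ∀ C : ℝ, ∀ V ⊆ W, IsOpen V → V.Nonempty → ∃ x ∈ V, Reaches m C x := by
  refine ⟨fun H C V h1 h2 h3 => ?_, fun H V h1 h2 h3 => ?_⟩
  · obtain ⟨x, hx, hx'⟩ := H V h1 h2 h3
    exact ⟨x, hx, hx' C⟩
  · have hd : Dense (⋂ n : ℕ, ({x ∈ Phase | Reaches m n x} ∪ (closure V)ᶜ)) := by
      refine dense_iInter_of_isOpen (fun n => (h n).union isClosed_closure.isOpen_compl)
        fun n => ?_
      rw [dense_iff_inter_open]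
      intro O hO hne
      by_cases hc : (O ∩ V).Nonempty
      · obtain ⟨x, ⟨hx1, hx2⟩, hx3⟩ := H n (O ∩ V) (inter_subset_right.trans h1)
          (hO.inter h2) hc
        exact ⟨x, hx1, Or.inl ⟨hP (h1 hx2), hx3⟩⟩
      · obtain ⟨x, hx⟩ := hne
        refine ⟨x, hx, Or.inr fun hx' => hc ?_⟩
        obtain ⟨y, hy⟩ := mem_closure_iff.1 hx' O hO hx
        exact ⟨y, hy⟩
    obtain ⟨x, hx1, hx2⟩ := dense_iff_inter_open.1 hd V h2 h3
    refine ⟨x, hx1, fun C => ?_⟩
    obtain ⟨n, hn⟩ := exists_nat_gt C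
    have hx3 := mem_iInter.1 hx2 n
    rcases hx3 with hx3 | hx3
    · obtain ⟨s, t, q, a1, a2, a3, a4, a5, τ, a6, a, b, a7⟩ := hx3.2
      exact ⟨s, t, q, a1, a2, a3, a4, a5, τ, a6, a, b, hn.trans a7⟩
    · exact absurd (subset_closure hx1) hx3

/-- If all solutions from the nonempty open set `W` are bounded, then the bound is uniform on a
nonempty open subset of every nonempty open subset. -/
theorem uniform_of_bounded (m : Fin 3 → ℝ) (h : ContinuousDependence m) (W : Set (Pos × Pos))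
    (hP : W ⊆ Phase) (hb : ∀ x ∈ W, ¬ Unbounded m x) :
    ∀ V ⊆ W, IsOpen V → V.Nonempty → ∃ (C : ℝ) (V' : Set (Pos × Pos)), V' ⊆ V ∧ IsOpen V' ∧
      V'.Nonempty ∧ ∀ x ∈ V', ¬ Reaches m C x := by
  intro V h1 h2 h3
  by_contra hc
  push Not at hc
  have key := (dense_iff m h V (h1.trans hP)).2 fun C V' a1 a2 a3 => hc C V' a1 a2 a3
  obtain ⟨x, hx, hx'⟩ := key V Subset.rfl h2 h3
  exact hb x (h1 hx) hx'

end Pool.Agent.N522.TB
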